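import Pool.Agent.helper35.FGN.Spec

/-!
# Row fgn:ADJ (MP_a2a22c_al): the form of `u` in terms of the neighbours
-/

set_option autoImplicit false

namespace Pool.Agent.FGN

open Matrix Pool.Agent.H48SL Pool.Agent.UG

/-- a row which annihilates the common kernel of two rows is a combination of them -/
theorem ADJ_dec {n : ℕ} (f y g w P : Fin n → ℚ) (hfy : f ⬝ᵥ y = 1) (hfw : f ⬝ᵥ w = 0) (hgw : g ⬝ᵥ w ≠ 0)
    (hP : ∀ z : Fin n → ℚ, f ⬝ᵥ z = 0 → g ⬝ᵥ z = 0 → P ⬝ᵥ z = 0) : ∃ s t : ℚ, P = s • f + t • g := by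
  obtain ⟨k, hk⟩ : ∃ k : ℚ, k = g ⬝ᵥ w := ⟨_, rfl⟩
  have hk0 : k ≠ 0 := by rw [hk]; exact hgw
  obtain ⟨y', hy'⟩ : ∃ y' : Fin n → ℚ, y' = y - ((g ⬝ᵥ y) / k) • w := ⟨_, rfl⟩
  have h1 : f ⬝ᵥ y' = 1 := by
    rw [hy', dotProduct_sub, dotProduct_smul, hfy, hfw]
    simp
  have h2 : g ⬝ᵥ y' = 0 := by
    rw [hy', dotProduct_sub, dotProduct_smul, ← hk, smul_eq_mul, div_mul_cancel₀ _ hk0, sub_self]
  refine ⟨P ⬝ᵥ y', (P ⬝ᵥ w) / k, funext fun i => ?_⟩
  have h3 := hP (Pi.single i 1 - (f i) • y' - (g i / k) • w) (by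
    rw [dotProduct_sub, dotProduct_sub, dotProduct_smul, dotProduct_smul, h1, hfw, dotProduct_single]
    simp) (by
    rw [dotProduct_sub, dotProduct_sub, dotProduct_smul, dotProduct_smul, h2, ← hk, dotProduct_single, smul_eq_mul, smul_eq_mul,
      div_mul_cancel₀ _ hk0]
    simp)
  rw [dotProduct_sub, dotProduct_sub, dotProduct_smul, dotProduct_smul, dotProduct_single, smul_eq_mul, smul_eq_mul, mul_one] at h3
  simp only [Pi.add_apply, Pi.smul_apply, smul_eq_mul]
  have h4 : g i / k * (P ⬝ᵥ w) = (P ⬝ᵥ w) / k * g i := by ring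
  linarith

/-- dependent integral vectors -/
theorem ADJ_dep {n : ℕ} (v P P' : Fin n → ℤ) (α : ℤ) (r : ℚ) (hα : α ≠ 0) (hP : P = α • v) (hP' : castV P' = r • castV v) : ¬ Indep P P' := by
  intro h
  have h1 := h (-r.num) (α * r.den) (by
    apply castV_inj
    rw [castV_zero]
    funext i
    have h2 := congrFun hP' i
    simp only [castV, Pi.smul_apply, smul_eq_mul] at h2
    simp only [castV, Pi.add_apply, Pi.smul_apply, smul_eq_mul, Pi.zero_apply, hP]
    push_cast
    rw [h2]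
    have h3 : (r.num : ℚ) = r * r.den := (Rat.mul_den_eq_num r).symm
    rw [h3]
    ring)
  have h4 := h1.2
  rcases mul_eq_zero.1 h4 with h5 | h5
  · exact hα h5
  · have := r.den_ne_zero
    exact this (by exact_mod_cast h5)

theorem ADJ (hSTR : STR_stmt) : ADJ_stmt := by
  intro n u P P' Q Q' hu hP hQ' hP' hQ hPP hQQ
  obtain ⟨v, f, x, y, w, g, hxv, hyf, hfv, hfw, hgv, hgw, hqg, hImV, hImR, hFixV, hFixR⟩ := hSTR n u hu
  obtain ⟨α, hα⟩ := (hImV P).1 hP
  obtain ⟨β, hβ⟩ := (hImR Q').1 hQ'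
  have hα0 : α ≠ 0 := by
    intro h
    rw [h, zero_smul] at hα
    have := (hPP 1 0 (by rw [hα]; simp)).1
    exact one_ne_zero this
  have hβ0 : β ≠ 0 := by
    intro h
    rw [h, zero_smul] at hβ
    have := (hQQ 0 1 (by rw [hβ]; simp)).2
    exact one_ne_zero this
  have hyf' : castV f ⬝ᵥ castV y = 1 := by
    rw [castV_dot, dotProduct_comm, hyf]
    simp
  have hxv' : castV v ⬝ᵥ castV x = 1 := by
    rw [castV_dot, dotProduct_comm, hxv]
    simp
  have hfv' : castV f ⬝ᵥ castV v = 0 := by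
    rw [castV_dot, hfv]
    simp
  obtain ⟨s', s, hQe⟩ := ADJ_dec (castV f) (castV y) g w (castV Q) hyf' hfw hgw (by
    intro z hz1 hz2
    obtain ⟨N, z', hN, hz'⟩ := clear_denom z
    have hN' : (N : ℚ) ≠ 0 := by exact_mod_cast hN
    have h1 : z' ∈ FixV u := by
      rw [hFixV]
      constructor
      · have h2 : castV f ⬝ᵥ castV z' = 0 := by rw [hz', dotProduct_smul, hz1, smul_zero]
        rw [castV_dot] at h2
        exact_mod_cast h2
      · rw [hz', dotProduct_smul, hz2, smul_zero]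
    have h3 := hQ z' h1
    have h4 : castV Q ⬝ᵥ castV z' = 0 := by
      rw [castV_dot, h3]
      simp
    rw [hz', dotProduct_smul, smul_eq_mul] at h4
    exact (mul_eq_zero.1 h4).resolve_left hN')
  obtain ⟨t', t, hPe⟩ := ADJ_dec (castV v) (castV x) w g (castV P') hxv' (by rw [dotProduct_comm]; exact hgv) (by rw [dotProduct_comm]; exact hgw) (by
    intro z hz1 hz2
    obtain ⟨N, z', hN, hz'⟩ := clear_denom z
    have hN' : (N : ℚ) ≠ 0 := by exact_mod_cast hN
    have h1 : z' ∈ FixR u := by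
      rw [hFixR]
      constructor
      · have h2 : castV v ⬝ᵥ castV z' = 0 := by rw [hz', dotProduct_smul, hz1, smul_zero]
        rw [castV_dot, dotProduct_comm] at h2
        exact_mod_cast h2
      · rw [dotProduct_comm, hz', dotProduct_smul, hz2, smul_zero]
    have h3 := hP' z' h1
    have h4 : castV P' ⬝ᵥ castV z' = 0 := by
      rw [castV_dot, dotProduct_comm, h3]
      simp
    rw [hz', dotProduct_smul, smul_eq_mul] at h4
    exact (mul_eq_zero.1 h4).resolve_left hN')
  have hs : s ≠ 0 := by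
    intro h
    rw [h, zero_smul, add_zero] at hQe
    exact ADJ_dep f Q' Q β s' hβ0 hβ hQe (fun a b hab => by
      have := hQQ b a (by rw [add_comm]; exact hab)
      exact ⟨this.2, this.1⟩)
  have ht : t ≠ 0 := by
    intro h
    rw [h, zero_smul, add_zero] at hPe
    exact ADJ_dep v P P' α t' hα0 hα hPe hPP
  have hα' : (α : ℚ) ≠ 0 := by exact_mod_cast hα0
  have hβ' : (β : ℚ) ≠ 0 := by exact_mod_cast hβ0
  have hPc : castV P = (α : ℚ) • castV v := by
    rw [hα]
    funext i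
    simp [castV]
  have hQc : castV Q' = (β : ℚ) • castV f := by
    rw [hβ]
    funext i
    simp [castV]
  refine ⟨?_, ?_, ?_, ?_, 1 / (α * s), 1 / (t * β), -(t' / (t * β * α)) - s' / (α * s * β), ?_, ?_, ?_⟩
  · intro h
    have h1 : castV Q ⬝ᵥ castV P' = 0 := by
      rw [castV_dot, h]
      simp
    rw [hQe, hPe] at h1
    simp only [add_dotProduct, dotProduct_add, smul_dotProduct, dotProduct_smul, hfv', hfw, hgv, smul_eq_mul, mul_zero, zero_add, add_zero] at h1
    exact (mul_ne_zero hs (mul_ne_zero ht hgw)) (by linarith)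
  · have h1 : castV Q ⬝ᵥ castV P = 0 := by
      rw [hQe, hPc]
      simp only [add_dotProduct, smul_dotProduct, dotProduct_smul, hfv', hgv, smul_eq_mul, mul_zero, add_zero]
    rw [castV_dot] at h1
    exact_mod_cast h1
  · have h1 : castV Q' ⬝ᵥ castV P = 0 := by
      rw [hQc, hPc]
      simp only [smul_dotProduct, dotProduct_smul, hfv', smul_eq_mul, mul_zero]
    rw [castV_dot] at h1
    exact_mod_cast h1
  · have h1 : castV Q' ⬝ᵥ castV P' = 0 := by
      rw [hQc, hPe]
      simp only [dotProduct_add, smul_dotProduct, dotProduct_smul, hfv', hfw, smul_eq_mul, mul_zero, add_zero]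
    rw [castV_dot] at h1
    exact_mod_cast h1
  · exact one_div_ne_zero (mul_ne_zero hα' hs)
  · exact one_div_ne_zero (mul_ne_zero ht hβ')
  · rw [hqg, add_assoc, add_assoc, add_assoc]
    congr 1
    ext i j
    have e1 := congrFun hPe i
    have e2 := congrFun hQe j
    have e3 := congrFun hPc i
    have e4 := congrFun hQc j
    simp only [Pi.add_apply, Pi.smul_apply, smul_eq_mul] at e1 e2 e3 e4
    simp only [Matrix.add_apply, Matrix.smul_apply, vecMulVec_apply, smul_eq_mul, e1, e2, e3, e4]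
    field_simp
    ring

end Pool.Agent.FGN
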